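import Pool.Agent.N893.MU.Main

set_option autoImplicit false

/-!
# Record prime-free sets made of arbitrary multiples of `1, 2, ..., H`

The record for large gaps (the starting result RecordGaps) says that the translate `m + {1, ..., H}`,
`H = c f(X)`, is free of primes for some `m ≤ X`. Here `n` is replaced by an arbitrary multiple `n x_n`
of `n`, or by `M` multiples of it (then `H = (c/M) f(X)`), of size up to `exp ((log X) ^ D)`, and `m` can be
found in every interval of length `X`. For instance one `m` serves all polynomials `g` without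
constant term, of bounded degree and height: no `m + g(n)`, `1 ≤ |n| ≤ c f(X)`, is a prime.

Proof. Rankin's choice `m ≡ 0 (mod p)` for the primes `p ≤ (log y)^5` and `v < p ≤ y`, `y = (log X)/10`,
removes all multiples of every `n` which is not prime or `v`-smooth, whatever the multiples are; for the
other primes a greedy choice of `m (mod p)` removes each value with probability `1 / p`. The `c log X`
values left are made composite by the sieve of RecordGaps.
-/

namespace Pool.Agent.Results.MP_3bc45c_nt.ArbitraryMultiples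

/-- The record scale `f(x) = log x (log₂ x)² log₄ x / (log₃ x)²` (iterated natural logarithms). -/
noncomputable def f (x : ℝ) : ℝ :=
  Real.log x * (Real.log (Real.log x)) ^ 2 * Real.log (Real.log (Real.log (Real.log x))) /
    (Real.log (Real.log (Real.log x))) ^ 2

/-- For every `D` there are `c > 0` and `X₀` such that for all `X ≥ X₀` and `1 ≤ M ≤ log log X` the following
holds. For every `n` let `h n` be a set of at most `M` integers `x` with `|n x| ≤ exp ((log X) ^ D)`. Then
every interval `(z, z + X]` contains an integer `m` such that none of the integers `m + n x`,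
`1 ≤ n ≤ (c / M) f(X)`, `x ∈ h n`, is a prime or minus a prime. -/
theorem result (D : ℕ) : ∃ c : ℝ, 0 < c ∧ ∃ X₀ : ℝ, ∀ X : ℝ, X₀ ≤ X →
    ∀ M : ℕ, 1 ≤ M → (M : ℝ) ≤ Real.log (Real.log X) → ∀ h : ℕ → Finset ℤ, (∀ n, (h n).card ≤ M) →
    (∀ n, ∀ x ∈ h n, |(n : ℝ) * (x : ℝ)| ≤ Real.exp ((Real.log X) ^ D)) → ∀ z : ℤ,
    ∃ m : ℤ, (z : ℝ) < m ∧ (m : ℝ) ≤ z + X ∧
      ∀ n : ℕ, 1 ≤ n → (n : ℝ) ≤ c / M * f X → ∀ x ∈ h n, ¬ (m + (n : ℤ) * x).natAbs.Prime := by
  obtain ⟨c, hc, X₀, h⟩ := Pool.Agent.N893.MU.main D
  refine ⟨c, hc, X₀, fun X hX M hM hMX g hg hbd z => ?_⟩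
  obtain ⟨m, h1, h2, h3⟩ := h X hX M hM hMX g hg hbd z
  refine ⟨m, h1, h2, fun n hn hnf x hx hp => ?_⟩
  refine h3 n hn ?_ x hx (Int.prime_iff_natAbs_prime.2 hp)
  have hM0 : (0 : ℝ) < M := by exact_mod_cast hM
  calc (M : ℝ) * n ≤ M * (c / M * f X) := by gcongr
    _ = c * f X := by field_simp
    _ = _ := rfl

end Pool.Agent.Results.MP_3bc45c_nt.ArbitraryMultiples
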