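import Pool.Agent.N389.BI.Main

/-!
# Record prime gaps at the values of bilinear forms modulo primes on arbitrary sets

`ff x = log x (log₂ x)² log₄ x / (log₃ x)²` is the record scale of the starting library. Let `k`, `E` and
`0 < δ ≤ 1` be fixed and let `p` be a large prime. Let `d` and `ρ` be any numbers and `T₁, ..., T_k` matrices
of size `d` modulo `p` all of whose nontrivial linear combinations have rank at least `ρ`, let `A` and
`B` be ARBITRARY sets of vectors of length `d` modulo `p` and `φ_j`, `ψ_j` ARBITRARY functions, and consider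
the residues `F_j(a, b) = a · T_j b + φ_j(a) + ψ_j(b)`. For every box `∏ (M_j, M_j + L_j]` with sides between
`p^δ` and `p` and volume `V` with `V² |A| |B| ≥ p^(2k + 2d - ρ + δ)`, there are at least
`V |A| |B| / p^(k + δ)` pairs `(a, b)` in `A × B` for which the box contains integers
`n_j ≡ F_j(a, b) (mod p)` such that EVERY integer at distance at most `c ff(p)` from any of the products
`n₁^(e₁) ⋯ n_k^(e_k)` with coprime exponents `e_i ≤ E` (in particular from any of the `n_j`) has a prime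
factor at most `p^δ`.

Examples: `k = d = ρ = 1`: the products `a b` (and `a b + φ(a) + ψ(b)`) of residues from arbitrary sets with
`|A| |B| ≥ p^(1 + δ)`; `k = 1`, `ρ = d`: scalar products and quadratic forms of differences `Q(a - b)` (distances)
for arbitrary sets of vectors with `|A| |B| ≥ p^(d + δ)`; `k = ρ = d`: all coordinates of the products of
elements of arbitrary subsets of the field with `p^d` elements.
-/

set_option autoImplicit false

namespace Pool.Agent.Results.MP_3bc45c_nt.BilinearFormsModuloPrimes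

open Finset Filter Matrix

/-- the record scale for gaps between primes -/
noncomputable def ff (x : ℝ) : ℝ :=
  Real.log x * (Real.log (Real.log x)) ^ 2 * Real.log (Real.log (Real.log (Real.log x))) /
    (Real.log (Real.log (Real.log x))) ^ 2

/-- every integer at distance at most `c ff(p)` from `N` has a prime factor at most `p ^ δ` -/
def Desert (p : ℕ) (c δ : ℝ) (N : ℤ) : Prop :=
  ∀ m : ℤ, |(m : ℝ) - N| ≤ c * ff p → ∃ l : ℕ, l.Prime ∧ (l : ℝ) ≤ (p : ℝ) ^ δ ∧ (l : ℤ) ∣ m

/-- Record prime gaps at the values of bilinear forms modulo primes on arbitrary sets. -/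
theorem result (k E : ℕ) (δ : ℝ) (hδ : 0 < δ) (hδ1 : δ ≤ 1) :
    ∃ c : ℝ, 0 < c ∧ ∀ᶠ p : ℕ in atTop, p.Prime → ∀ (d ρ : ℕ)
      (T : Fin k → Matrix (Fin d) (Fin d) (ZMod p)),
      (∀ h : Fin k → ZMod p, h ≠ 0 → ρ ≤ (∑ j, h j • T j).rank) →
      ∀ (A B : Finset (Fin d → ZMod p)) (φ ψ : Fin k → (Fin d → ZMod p) → ZMod p)
        (M : Fin k → ℤ) (L : Fin k → ℕ), (∀ i, (p : ℝ) ^ δ ≤ L i ∧ L i ≤ p) →
      (p : ℝ) ^ (2 * k + 2 * d + δ) ≤ (∏ i, (L i : ℝ)) ^ 2 * (A.card * B.card) * (p : ℝ) ^ ρ →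
      (∏ i, (L i : ℝ)) * (A.card * B.card) / (p : ℝ) ^ (k + δ) ≤
        ({x : (Fin d → ZMod p) × (Fin d → ZMod p) | x.1 ∈ A ∧ x.2 ∈ B ∧
          ∃ n : Fin k → ℤ, (∀ i, M i < n i ∧ n i ≤ M i + L i ∧
            ((n i : ℤ) : ZMod p) = x.1 ⬝ᵥ (T i *ᵥ x.2) + φ i x.1 + ψ i x.2) ∧
          ∀ e : Fin k → ℕ, (∀ i, e i ≤ E) → Finset.univ.gcd e = 1 →
            Desert p c δ (∏ i, n i ^ e i)}.ncard : ℝ) := by
  classical
  obtain ⟨c, hc, hev⟩ := Pool.Agent.N389.BI.main k E δ hδ hδ1
  refine ⟨c, hc, ?_⟩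
  filter_upwards [hev] with p hp
  intro hpp d ρ T hT A B φ ψ M L hL hV
  have : Fact p.Prime := ⟨hpp⟩
  have h1 := hp d ρ T hT A B φ ψ M L hL hV
  refine h1.trans ?_
  rw [← Set.ncard_coe_finset, Nat.cast_le]
  apply Set.ncard_le_ncard
  · intro x hx
    rw [mem_coe, mem_filter, mem_product] at hx
    obtain ⟨hx1, hx2, hx3⟩ := hx
    refine ⟨hx1.1, hx1.2, fun i => Pool.Agent.N725.JC.rep (M i) (L i)
      (x.1 ⬝ᵥ (T i *ᵥ x.2) + φ i x.1 + ψ i x.2), hx2, ?_⟩
    intro e he hg m hm
    refine hx3 e he hg m ?_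
    push_cast at hm
    exact hm
  · exact Set.toFinite _

end Pool.Agent.Results.MP_3bc45c_nt.BilinearFormsModuloPrimes
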