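import Mathlib
import Pool.Agent.N646.RW.Eq

/-!
# Linear equations in the patterns of clusters of primes isolated in record windows, at every scale

Let `f(X) = log X (log₂ X)² log₄ X / (log₃ X)²`, the order of the largest gaps between consecutive primes that are
known (starting files) to occur up to `X`. For a vector `h` of `k` integers (with `0, h_1, …, h_k` distinct) consider the integers
`n ≡ b (mod q)` of `(X, 4X]` such that `n, n + h_1, …, n + h_k` are primes and the interval
`[n - c f(X), n + c f(X)]` contains at most `K` primes (so that the cluster is next to, or contains, a gap longer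
than `c f(X) / (K + 1)`). Call `h` frequent if there are at least `X^(6/7)` such `n`.

Theorem. There is an absolute constant `p₀` such that for all `k`, all `p ≥ p₀`, all nonzero integers
`a_1, …, a_p` and all squarefree `q` there are `N, B, K ≥ 1` and `c, δ > 0` with: for all `b` coprime to `q`, all
large `X`, EVERY scale `B ≤ T ≤ c f(X)` and ALL vectors `v` of `k` multiples of `N` with `B |v_j| ≤ T`, the equation
`a_1 h^1 + … + a_p h^p = v` has at least `δ T^((p-1)k)` solutions (the right order of magnitude) in frequent vectors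
`h^i` with coordinates in `(-T, T)`.

So the set of the patterns of the clusters of primes near the record gaps is so rich at each scale up to the record
scale that it solves every linear equation in `p₀` vectors, in every dimension `k`.

Method. (1) The coloured Maynard-Tao theorem for arbitrary admissible tuples in the record windows
(`Pool.Agent.TH101.RG.tuple_multiples`, starting files; the record sieve of helper256, helper410, helper312,
helper362 and others) in the form of `Pool.Agent.N688.FB.rec_hit` (helper688). (2) Hypergraph containers give at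
each scale a set `A` of positive density `ρ - ε` of multiples of `M` almost all of whose `(k+1)`-tuples are clusters
(`Pool.Agent.N646.AC.wclique`). (3) A density increment, Kneser's theorem in windows whose length is an almost
period of the number of representations, and a count (`Pool.Agent.N646.SF.sfgT`: helpers 646, 327, 849, 868, 935,
99, 134, 195, 624, 348): the sets `a_i A + t_i` have all integers of a long interval as popular sums as soon as
`p ρ ≥ 1`; so `v` has many representations by differences of good tuples.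
-/

set_option autoImplicit false

namespace Pool.Agent.Results.MP_3bc45c_nt.LinearEquationsInRecordWindows

open Filter Finset

/-- The record scale `f(x) = log x (log₂ x)² log₄ x / (log₃ x)²` (iterated natural logarithms). -/
noncomputable def f (x : ℝ) : ℝ :=
  Real.log x * (Real.log (Real.log x)) ^ 2 * Real.log (Real.log (Real.log (Real.log x))) /
    (Real.log (Real.log (Real.log x))) ^ 2

/-- The number of the `n ≡ b (mod q)` in `(X, 4X]` such that `n` and all the `n + h_i` are prime and at most `K`
primes are at distance at most `G` from `n`. -/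
noncomputable def clusters {k : ℕ} (G X : ℝ) (K q b : ℕ) (h : Fin k → ℤ) : ℕ :=
  {n : ℕ | X < n ∧ (n : ℝ) ≤ 4 * X ∧ n ≡ b [MOD q] ∧ n.Prime ∧ (∀ i, ((n : ℤ) + h i).toNat.Prime) ∧
    {p : ℕ | p.Prime ∧ |(p : ℝ) - n| ≤ G}.ncard ≤ K}.ncard

/-- The integers `0, h_1, …, h_k` are distinct and `h` is the pattern of at least `X^(6/7)` clusters. -/
def Frequent {k : ℕ} (G X : ℝ) (K q b : ℕ) (h : Fin k → ℤ) : Prop :=
  Function.Injective h ∧ (∀ i, h i ≠ 0) ∧ X ^ (6 / 7 : ℝ) ≤ (clusters G X K q b h : ℝ)

/-- The solutions of `a_1 h^1 + … + a_p h^p = v` in vectors `h^i` with coordinates in `(-T, T)`. -/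
noncomputable def solutions {k p : ℕ} (a : Fin p → ℤ) (v : Fin k → ℤ) (T : ℕ) : Finset (Fin p → Fin k → ℤ) :=
  (Fintype.piFinset (fun _ : Fin p => Fintype.piFinset (fun _ : Fin k => Ioo (-(T : ℤ)) T))).filter
    (fun h => ∀ j, ∑ i, a i * h i j = v j)

open Classical in
/-- **Linear equations in the patterns of clusters in record windows.** -/
theorem result : ∃ p₀ : ℕ, ∀ k p q : ℕ, Squarefree q → p₀ ≤ p → ∀ a : Fin p → ℤ, (∀ i, a i ≠ 0) →
    ∃ (N B K : ℕ) (c δ : ℝ), 1 ≤ N ∧ 1 ≤ B ∧ 0 < c ∧ 0 < δ ∧ ∀ b : ℕ, b.Coprime q →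
      ∀ᶠ X : ℝ in atTop, ∀ T : ℕ, B ≤ T → (T : ℝ) ≤ c * f X →
        ∀ v : Fin k → ℤ, (∀ j, (N : ℤ) ∣ v j) → (∀ j, B * |v j| ≤ T) →
          δ * (T : ℝ) ^ ((p - 1) * k) ≤
            (((solutions a v T).filter (fun h => ∀ i, Frequent (c * f X) X K q b (h i))).card : ℝ) := by
  obtain ⟨p₀, -, h⟩ := Pool.Agent.N646.RW.rw_equations
  refine ⟨p₀, fun k p q hq hp a ha => ?_⟩
  obtain ⟨N, B, K, c, δ, hN, hB, hc, hδ, h⟩ := h k p q hq hp a ha
  refine ⟨N, B, K, c, δ, hN, hB, hc, hδ, fun b hb => ?_⟩
  filter_upwards [h b hb] with X hX T hT hTX v hv1 hv2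
  refine (hX T hT hTX v hv1 hv2).trans ?_
  rw [Nat.cast_le]
  apply card_le_card
  intro y hy
  rw [mem_filter] at hy
  rw [mem_filter, solutions, mem_filter]
  refine ⟨⟨hy.1, hy.2.2⟩, fun i => ?_⟩
  obtain ⟨h1, h2⟩ := hy.2.1 i
  refine ⟨?_, ?_, h2.trans ?_⟩
  · intro j j' hjj
    have h3 : Pool.Agent.N646.AC.nv (y i) j.succ = Pool.Agent.N646.AC.nv (y i) j'.succ := by
      unfold Pool.Agent.N646.AC.nv
      rw [Fin.cons_succ, Fin.cons_succ]
      exact hjj
    exact Fin.succ_injective _ (h1 h3)
  · intro j hj
    have h3 : Pool.Agent.N646.AC.nv (y i) j.succ = Pool.Agent.N646.AC.nv (y i) 0 := by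
      unfold Pool.Agent.N646.AC.nv
      rw [Fin.cons_succ, Fin.cons_zero]
      exact hj
    exact Fin.succ_ne_zero _ (h1 h3)
  · rw [Nat.cast_le]
    unfold Pool.Agent.N688.FB.clu clusters
    apply Set.ncard_le_ncard
    · rintro n ⟨h6, h7, h8, h9, h10⟩
      have h11 := h9 0 ⟨0, by
        unfold Pool.Agent.N646.AC.nv
        rw [Fin.cons_zero]⟩
      refine ⟨h6, h7, h8, ?_, fun j => ?_, h10⟩
      · rwa [mul_zero, add_zero, Int.toNat_natCast] at h11
      · have h12 := h9 (y i j) ⟨j.succ, by
          unfold Pool.Agent.N646.AC.nv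
          rw [Fin.cons_succ]⟩
        rwa [Nat.cast_one, one_mul] at h12
    · apply (Set.finite_Iic ⌊4 * X⌋₊).subset
      intro n hn
      exact Set.mem_Iic.2 (Nat.le_floor hn.2.1)

end Pool.Agent.Results.MP_3bc45c_nt.LinearEquationsInRecordWindows
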