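import Pool.Agent.N647.BU.Prod
import Pool.Agent.N647.FG.CritCount

set_option autoImplicit false

/-! # Residue classes as products of centres of record prime gaps from short intervals -/

namespace Pool.Agent.Results.MP_3bc45c_nt.ProductsOfShortIntervals

open Finset Filter
open Pool.Agent.N647.FG (AP AP_one AP_card Far crit_count prod_pert)
open Pool.Agent.N647.BU (bur_AP SX prod_cnt_bound units_AP)
open Pool.Agent.W147.PS (ev_pow)

/-- the record scale for gaps between primes -/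
noncomputable def f (x : ℝ) : ℝ :=
  Real.log x * (Real.log (Real.log x)) ^ 2 * Real.log (Real.log (Real.log (Real.log x))) /
    (Real.log (Real.log (Real.log x))) ^ 2

/-- For every `δ > 0` there is `r₀` such that for every `r ≥ r₀` there are `κ > 0` and `p₀` with the
following property. Let `p ≥ p₀` be a prime, `a` an integer prime to `p`, and
`(M j, M j + L j]`, `j < r`, intervals in arbitrary position with
`p ^ (1/4 + δ) ≤ L j ≤ p`. At least `∏ L j / p ^ (1 + δ)` of the vectors `x` of integers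
`x j ∈ (M j, M j + L j]` satisfy `x 1 ⋯ x r ≡ a` modulo `p` and have the property
that every integer at distance at most `κ f(p)` from any of the `x j` has a prime factor at most
`p ^ δ`. -/
theorem result (δ : ℝ) (hδ : 0 < δ) : ∃ r₀ : ℕ, ∀ r : ℕ, r₀ ≤ r →
    ∃ κ : ℝ, 0 < κ ∧ ∃ p₀ : ℕ, ∀ p : ℕ, p.Prime → p₀ ≤ p → ∀ a : ℤ, ¬ (p : ℤ) ∣ a →
    ∀ (M : Fin r → ℤ) (L : Fin r → ℕ), (∀ j, (p : ℝ) ^ (1 / 4 + δ) ≤ L j ∧ L j ≤ p) →
      (∏ j, (L j : ℝ)) / (p : ℝ) ^ (1 + δ) ≤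
        ({x : Fin r → ℤ | (∀ j, M j < x j ∧ x j ≤ M j + L j) ∧ (p : ℤ) ∣ (∏ j, x j) - a ∧
          ∀ j, ∀ m : ℤ, |(m : ℝ) - x j| ≤ κ * f p →
            ∃ l : ℕ, l.Prime ∧ (l : ℝ) ≤ (p : ℝ) ^ δ ∧ (l : ℤ) ∣ m}.ncard : ℝ) := by
  classical
  obtain ⟨δ', hδ', hbur⟩ := bur_AP δ hδ
  set δ₂ : ℝ := min (δ / 2) (min δ' (1 / 10)) with hδ₂
  have hδ₂0 : 0 < δ₂ := lt_min (by positivity) (lt_min (by positivity) (by norm_num))
  have a1 : δ₂ ≤ δ / 2 := min_le_left _ _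
  have a2 : δ₂ ≤ δ' := (min_le_right _ _).trans (min_le_left _ _)
  have a3 : δ₂ ≤ 1 / 10 := (min_le_right _ _).trans (min_le_right _ _)
  obtain ⟨r₀, hr₀⟩ := exists_nat_ge (2 / δ' + 1)
  refine ⟨r₀, fun r hr => ?_⟩
  have hrR : 2 / δ' + 1 ≤ (r : ℝ) := hr₀.trans (by exact_mod_cast hr)
  have hr1R : (1 : ℝ) ≤ r := by
    have : 0 < 2 / δ' := by positivity
    linarith
  have hr1 : 1 ≤ r := by exact_mod_cast hr1R
  have hrδ : 2 ≤ δ' * r := by
    have h1 : 2 / δ' ≤ r := by linarith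
    rw [div_le_iff₀ hδ'] at h1
    linarith
  obtain ⟨κ, hκ, hcrit⟩ := crit_count r hr1 δ₂ hδ₂0 (by linarith)
  refine ⟨κ, hκ, ?_⟩
  set θ : ℝ := δ₂ / (4 * r + 2) with hθ
  have hθ0 : 0 < θ := by positivity
  have hθ1 : θ ≤ δ₂ / 6 := by
    rw [hθ]
    apply div_le_div_of_nonneg_left hδ₂0.le (by norm_num) (by linarith)
  have tc : Tendsto (fun q : ℕ => (q : ℝ)) atTop atTop := tendsto_natCast_atTop_atTop
  have hev := ((((hbur.and (tc.eventually hcrit)).and (tc.eventually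
    (ev_pow (θ - 1 / 4) (-δ₂) (8 * 3 * 2 ^ r) (by linarith)))).and (tc.eventually
    (ev_pow (-1) (-δ₂) 8 (by linarith)))).and (tc.eventually
    (ev_pow δ₂ δ 2 (by linarith)))).and (tc.eventually (ev_pow (θ - 1 / 4) 0 3 (by linarith)))
  obtain ⟨p₀, hp₀⟩ := eventually_atTop.mp hev
  refine ⟨p₀, ?_⟩
  intro p hp hpp a ha M L hL
  have : Fact p.Prime := ⟨hp⟩
  obtain ⟨⟨⟨⟨⟨g1, g2⟩, g3⟩, g4⟩, g5⟩, g6⟩ := hp₀ p hpp
  have hp1 : (1 : ℝ) < p := by exact_mod_cast hp.one_lt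
  have hp0 : (0 : ℝ) < p := by linarith
  have hmono : ∀ x y : ℝ, x ≤ y → (p : ℝ) ^ x ≤ (p : ℝ) ^ y := fun x y h =>
    Real.rpow_le_rpow_of_exponent_le hp1.le h
  have ha' : (a : ZMod p) ≠ 0 := by
    rw [Ne, ZMod.intCast_zmod_eq_zero_iff_dvd]
    exact ha
  have hL0 : ∀ j, (0 : ℝ) < L j := fun j => (Real.rpow_pos_of_pos hp0 _).trans_le (hL j).1
  set V : ℝ := ∏ j, (L j : ℝ) with hV
  have hV0 : 0 < V := prod_pos fun j _ => hL0 j
  set φ : ℝ := (p.totient : ℝ) with hφ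
  have hφ0 : 0 < φ := by
    rw [hφ]
    exact_mod_cast Nat.totient_pos.mpr hp.pos
  have hφp : φ ≤ p := by
    rw [hφ]
    exact_mod_cast Nat.totient_le p
  set A : ℝ := V / φ with hA
  have hA0 : 0 < A := by positivity
  have hpδ₂ : 0 < (p : ℝ) ^ (-δ₂) := Real.rpow_pos_of_pos hp0 _
  have hsmall : (p : ℝ) ^ (-δ₂) ≤ 1 :=
    Real.rpow_le_one_of_one_le_of_nonpos hp1.le (by linarith)
  -- the count in progressions
  have key : ∀ q : ℕ, 1 ≤ q → (q : ℝ) ≤ (p : ℝ) ^ θ → ∀ ρ : Fin r → ℤ,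
      |(((Fintype.piFinset fun j => AP (M j) (L j) q (ρ j)).filter
        (fun x => ∏ j, ((x j : ℤ) : ZMod p) = (a : ZMod p))).card : ℝ) - A / (q : ℝ) ^ r| ≤
        A * ((p : ℝ) ^ (-δ₂) / 4) := by
    intro q hq hqp ρ
    have hqR : (1 : ℝ) ≤ q := by exact_mod_cast hq
    have hq0 : (0 : ℝ) < q := by linarith
    have hqδ' : (q : ℝ) ≤ (p : ℝ) ^ δ' := hqp.trans (hmono _ _ (by linarith))
    have h1 := prod_cnt_bound (fun j => AP (M j) (L j) q (ρ j)) (a : ZMod p) ha'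
      (fun j => (p : ℝ) ^ (-δ') * L j) (fun j => by positivity)
      (fun χ hχ j => g1 χ hχ (M j) (L j) q hq hqδ' (ρ j) (hL j).1)
    set η : ℝ := 3 * (p : ℝ) ^ (θ - 1 / 4) with hη
    have hη0 : 0 ≤ η := by positivity
    have hη1 : η ≤ 1 := by simpa using g6
    have h2 := prod_pert univ
      (fun j => (((AP (M j) (L j) q (ρ j)).filter (fun x : ℤ => (x : ZMod p) ≠ 0)).card : ℝ))
      (fun j => (L j : ℝ) / q) η hη0 hη1 (fun j _ => by positivity) (fun j _ => by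
        refine (units_AP (M j) (L j) q hq (hL j).2 (ρ j)).trans ?_
        rw [hη, mul_assoc]
        have h3 : 1 ≤ (p : ℝ) ^ (θ - 1 / 4) * ((L j : ℝ) / q) := by
          rw [mul_div_assoc', one_le_div hq0]
          calc (q : ℝ) ≤ (p : ℝ) ^ θ := hqp
            _ = (p : ℝ) ^ (θ - 1 / 4) * (p : ℝ) ^ (1 / 4 : ℝ) := by
                rw [← Real.rpow_add hp0]; congr 1; ring
            _ ≤ (p : ℝ) ^ (θ - 1 / 4) * L j := by
                apply mul_le_mul_of_nonneg_left _ (by positivity)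
                exact (hmono _ _ (by linarith)).trans (hL j).1
        linarith)
    rw [card_univ, Fintype.card_fin] at h2
    have e1 : ∏ j, ((L j : ℝ) / q) = V / (q : ℝ) ^ r := by
      rw [prod_div_distrib, prod_const, card_univ, Fintype.card_fin]
    rw [e1] at h2
    have e2 : ∏ j, ((p : ℝ) ^ (-δ') * L j) = (p : ℝ) ^ (-(δ' * r)) * V := by
      rw [prod_mul_distrib, prod_const, card_univ, Fintype.card_fin, ← Real.rpow_natCast,
        ← Real.rpow_mul hp0.le]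
      congr 2
      ring
    rw [e2] at h1
    set U : ℝ := ∏ j, (((AP (M j) (L j) q (ρ j)).filter (fun x : ℤ => (x : ZMod p) ≠ 0)).card : ℝ)
      with hU
    have h3 : |(1 / φ) * U - A / (q : ℝ) ^ r| ≤ A * ((p : ℝ) ^ (-δ₂) / 8) := by
      have e3 : (1 / φ) * U - A / (q : ℝ) ^ r = (1 / φ) * (U - V / (q : ℝ) ^ r) := by
        rw [hA]; field_simp
      rw [e3, abs_mul, abs_of_pos (show (0 : ℝ) < 1 / φ by positivity)]
      calc 1 / φ * |U - V / (q : ℝ) ^ r| ≤ 1 / φ * ((2 ^ r - 1) * η * (V / (q : ℝ) ^ r)) :=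
            mul_le_mul_of_nonneg_left h2 (by positivity)
        _ ≤ 1 / φ * (2 ^ r * η * V) := by
            apply mul_le_mul_of_nonneg_left _ (by positivity)
            apply mul_le_mul _ (div_le_self hV0.le (one_le_pow₀ hqR)) (by positivity)
              (by positivity)
            apply mul_le_mul_of_nonneg_right _ hη0
            linarith
        _ = A * (8 * 3 * 2 ^ r * (p : ℝ) ^ (θ - 1 / 4) / 8) := by rw [hA, hη]; ring
        _ ≤ A * ((p : ℝ) ^ (-δ₂) / 8) := by gcongr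
    have h4 : (p : ℝ) ^ (-(δ' * r)) * V ≤ A * ((p : ℝ) ^ (-δ₂) / 8) := by
      have h5 : (p : ℝ) ^ (-(δ' * r)) * φ ≤ (p : ℝ) ^ (-δ₂) / 8 := by
        calc (p : ℝ) ^ (-(δ' * r)) * φ ≤ (p : ℝ) ^ (-2 : ℝ) * p :=
              mul_le_mul (hmono _ _ (by linarith)) hφp hφ0.le (by positivity)
          _ = (p : ℝ) ^ (-1 : ℝ) := by
              nth_rewrite 2 [← Real.rpow_one (p : ℝ)]
              rw [← Real.rpow_add hp0]
              norm_num
          _ ≤ (p : ℝ) ^ (-δ₂) / 8 := by linarith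
      calc (p : ℝ) ^ (-(δ' * r)) * V = A * ((p : ℝ) ^ (-(δ' * r)) * φ) := by
            rw [hA]; field_simp
        _ ≤ _ := mul_le_mul_of_nonneg_left h5 hA0.le
    have h6 := abs_add_le ((((Fintype.piFinset fun j => AP (M j) (L j) q (ρ j)).filter
        (fun x => ∏ j, ((x j : ℤ) : ZMod p) = (a : ZMod p))).card : ℝ) - (1 / φ) * U)
        ((1 / φ) * U - A / (q : ℝ) ^ r)
    rw [sub_add_sub_cancel] at h6
    linarith
  -- the family
  set s : Finset (Fin r → ℤ) := (Fintype.piFinset fun j => Ioc (M j) (M j + L j)).filter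
    (fun x => ∏ j, ((x j : ℤ) : ZMod p) = (a : ZMod p)) with hs
  have k1 := key 1 le_rfl (by simpa using Real.one_le_rpow hp1.le hθ0.le) (fun _ => 0)
  have e0 : (Fintype.piFinset fun j => AP (M j) (L j) 1 0) =
      Fintype.piFinset fun j => Ioc (M j) (M j + L j) := by
    congr 1
    funext j
    exact AP_one _ _ _
  rw [e0, ← hs, Nat.cast_one, one_pow, div_one] at k1
  have hscard : A / 2 ≤ (s.card : ℝ) := by
    have h1 := (abs_le.mp k1).1
    have h2 : A * ((p : ℝ) ^ (-δ₂) / 4) ≤ A * (1 / 4) := by gcongr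
    linarith
  have hmain := g2 (Fin r → ℤ) s (fun x j => x j) (by
    intro q hq hqp ρ
    have hqR : (1 : ℝ) ≤ (q : ℝ) ^ r := one_le_pow₀ (by exact_mod_cast hq)
    have k2 := key q hq hqp ρ
    have e1 : s.filter (fun i => ∀ j, (q : ℤ) ∣ i j - ρ j) =
        (Fintype.piFinset fun j => AP (M j) (L j) q (ρ j)).filter
        (fun x => ∏ j, ((x j : ℤ) : ZMod p) = (a : ZMod p)) := by
      ext x
      unfold AP
      simp only [hs, mem_filter, Fintype.mem_piFinset]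
      constructor
      · rintro ⟨⟨h1, h2⟩, h3⟩
        exact ⟨fun j => ⟨h1 j, h3 j⟩, h2⟩
      · rintro ⟨h1, h2⟩
        exact ⟨⟨fun j => (h1 j).1, h2⟩, fun j => (h1 j).2⟩
    rw [e1]
    have k3 : |A / (q : ℝ) ^ r - s.card / (q : ℝ) ^ r| ≤ A * ((p : ℝ) ^ (-δ₂) / 4) := by
      rw [← sub_div, abs_div, abs_of_pos (show (0 : ℝ) < (q : ℝ) ^ r by linarith), abs_sub_comm]
      exact (div_le_self (abs_nonneg _) hqR).trans k1
    have k4 := abs_add_le ((((Fintype.piFinset fun j => AP (M j) (L j) q (ρ j)).filter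
        (fun x => ∏ j, ((x j : ℤ) : ZMod p) = (a : ZMod p))).card : ℝ) - A / (q : ℝ) ^ r)
      (A / (q : ℝ) ^ r - s.card / (q : ℝ) ^ r)
    rw [sub_add_sub_cancel] at k4
    have k5 : A / 2 * (p : ℝ) ^ (-δ₂) ≤ s.card * (p : ℝ) ^ (-δ₂) :=
      mul_le_mul_of_nonneg_right hscard hpδ₂.le
    linarith)
  set Y := {x : Fin r → ℤ | (∀ j, M j < x j ∧ x j ≤ M j + L j) ∧ (p : ℤ) ∣ (∏ j, x j) - a ∧
          ∀ j, ∀ m : ℤ, |(m : ℝ) - x j| ≤ κ * f p →
            ∃ l : ℕ, l.Prime ∧ (l : ℝ) ≤ (p : ℝ) ^ δ ∧ (l : ℤ) ∣ m} with hY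
  have hYfin : Y.Finite := by
    apply Set.Finite.subset (Fintype.piFinset fun j => Ioc (M j) (M j + L j)).finite_toSet
    intro x hx
    rw [mem_coe, Fintype.mem_piFinset]
    intro j
    rw [mem_Ioc]
    exact hx.1 j
  have hle : (s.filter (fun x => ∀ j, Far (x j) (κ * Pool.Agent.W147.PS.ff p)
      ((p : ℝ) ^ δ₂))).card ≤ Y.ncard := by
    rw [← Set.ncard_coe_finset]
    apply Set.ncard_le_ncard _ hYfin
    intro x hx
    rw [mem_coe, mem_filter, hs, mem_filter, Fintype.mem_piFinset] at hx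
    refine ⟨fun j => mem_Ioc.mp (hx.1.1 j), ?_, ?_⟩
    · rw [← ZMod.intCast_zmod_eq_zero_iff_dvd]
      push_cast
      rw [hx.1.2, sub_self]
    · intro j m hm
      obtain ⟨l, hl, hl2, hl3⟩ := hx.2 j m hm
      exact ⟨l, hl, hl2.trans (hmono _ _ (by linarith)), hl3⟩
  have hle' : ((s.filter (fun x => ∀ j, Far (x j) (κ * Pool.Agent.W147.PS.ff p)
      ((p : ℝ) ^ δ₂))).card : ℝ) ≤ (Y.ncard : ℝ) := by exact_mod_cast hle
  refine le_trans ?_ (hmain.trans hle')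
  have e3 : (p : ℝ) ^ δ₂ * (p : ℝ) ^ (-δ₂) = 1 := by
    rw [← Real.rpow_add hp0]; simp
  have h1 : (1 : ℝ) / (p : ℝ) ^ (1 + δ) ≤ (p : ℝ) ^ (-δ₂) * (1 / (2 * φ)) := by
    have h2 : 2 * (p : ℝ) ^ δ₂ * φ ≤ (p : ℝ) ^ (1 + δ) := by
      calc 2 * (p : ℝ) ^ δ₂ * φ ≤ (p : ℝ) ^ δ * p := by gcongr
        _ = _ := by rw [Real.rpow_add hp0, Real.rpow_one, mul_comm]
    calc (1 : ℝ) / (p : ℝ) ^ (1 + δ) ≤ 1 / (2 * (p : ℝ) ^ δ₂ * φ) := by gcongr
      _ = _ := by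
        rw [Real.rpow_neg hp0.le]
        field_simp
  calc V / (p : ℝ) ^ (1 + δ) = V * (1 / (p : ℝ) ^ (1 + δ)) := by ring
    _ ≤ V * ((p : ℝ) ^ (-δ₂) * (1 / (2 * φ))) := mul_le_mul_of_nonneg_left h1 hV0.le
    _ = (p : ℝ) ^ (-δ₂) * (A / 2) := by rw [hA]; field_simp
    _ ≤ _ := mul_le_mul_of_nonneg_left hscard hpδ₂.le

end Pool.Agent.Results.MP_3bc45c_nt.ProductsOfShortIntervals
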